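import Pool.Agent.helper84.NR.Spec

set_option autoImplicit false

namespace Pool.Agent.helper84.NR

open scoped Classical
open Finset

/-- counting: `2 Q ≤ W + P` -/
theorem LOW_count (hDEG : DEG_stmt) {V F : Type} [Fintype V] [Fintype F] (M : PMap V F) (x : V)
    (B : F) :
    2 * (QQ M x B).card ≤
      (univ.filter (fun A => OnV M.toCyc A x ∧ ∃ s ∈ QQ M x B, OnV M.toCyc A s)).card +
        (PP M x B).card := by
  obtain ⟨-, hD2, hD3, -, -⟩ := hDEG V F M x
  set W : Finset F :=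
    univ.filter (fun A => OnV M.toCyc A x ∧ ∃ s ∈ QQ M x B, OnV M.toCyc A s) with hW
  have h1 : 2 * (QQ M x B).card =
      ∑ s ∈ QQ M x B, (univ.filter (fun A => OnV M.toCyc A x ∧ OnV M.toCyc A s)).card := by
    rw [Finset.sum_congr rfl (fun s hs => hD2 s (by
      unfold QQ at hs
      exact (mem_filter.1 hs).2.1)), sum_const, smul_eq_mul, Nat.mul_comm]
  have h2 : ∑ s ∈ QQ M x B, (univ.filter (fun A => OnV M.toCyc A x ∧ OnV M.toCyc A s)).card =
      ∑ A ∈ W, ((QQ M x B).filter (fun s => OnV M.toCyc A s)).card := by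
    have e1 : ∀ s ∈ QQ M x B,
        (univ.filter (fun A => OnV M.toCyc A x ∧ OnV M.toCyc A s)).card =
          ∑ A ∈ W, if OnV M.toCyc A s then 1 else 0 := by
      intro s hs
      rw [← card_filter]
      congr 1
      ext A
      rw [mem_filter, mem_filter, hW, mem_filter]
      constructor
      · rintro ⟨-, h3, h4⟩
        exact ⟨⟨mem_univ _, h3, s, hs, h4⟩, h4⟩
      · rintro ⟨⟨-, h3, -⟩, h4⟩
        exact ⟨mem_univ _, h3, h4⟩
    rw [Finset.sum_congr rfl e1, sum_comm]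
    refine Finset.sum_congr rfl fun A _ => ?_
    rw [card_filter]
  have h3 : ∀ A ∈ W, ((QQ M x B).filter (fun s => OnV M.toCyc A s)).card ≤
      1 + if A ∈ PP M x B then 1 else 0 := by
    intro A hA
    rw [hW, mem_filter] at hA
    have hAx := hA.2.1
    by_cases hP : A ∈ PP M x B
    · rw [if_pos hP]
      have hsub : (QQ M x B).filter (fun s => OnV M.toCyc A s) ⊆
          univ.filter (fun v => Adj M.toCyc x v ∧ OnV M.toCyc A v) := by
        intro s hs
        rw [mem_filter] at hs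
        unfold QQ at hs
        rw [mem_filter] at hs
        exact mem_filter.2 ⟨mem_univ _, hs.1.2.1, hs.2⟩
      have := card_le_card hsub
      rw [hD3 A hAx] at this
      omega
    · rw [if_neg hP]
      by_contra hcon
      have hlt : 1 < ((QQ M x B).filter (fun s => OnV M.toCyc A s)).card := by omega
      obtain ⟨s, hs, s', hs', hne⟩ := one_lt_card.1 hlt
      rw [mem_filter] at hs hs'
      unfold QQ at hs hs'
      rw [mem_filter] at hs hs'
      apply hP
      unfold PP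
      exact mem_filter.2 ⟨mem_univ _, hAx, s, s', hne, hs.1.2.1, hs'.1.2.1, hs.2, hs'.2,
        hs.1.2.2, hs'.1.2.2⟩
  have h4 : ∑ A ∈ W, ((QQ M x B).filter (fun s => OnV M.toCyc A s)).card ≤
      ∑ A ∈ W, (1 + if A ∈ PP M x B then 1 else 0) := sum_le_sum h3
  rw [sum_add_distrib, ← card_eq_sum_ones, ← card_filter] at h4
  have h5 : (W.filter (fun A => A ∈ PP M x B)).card ≤ (PP M x B).card := by
    apply card_le_card
    intro A hA
    exact (mem_filter.1 hA).2
  omega

theorem LOW (hIDX : IDX_stmt) (hEDG : EDG_stmt) (hDEG : DEG_stmt) : LOW_stmt := by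
  intro V F _ _ M x y B hbad hy hQ
  have hcount := LOW_count hDEG M x B
  obtain ⟨k0, hk0⟩ := hy
  obtain ⟨hinj, hsurj, -, hedge, -⟩ := hIDX V F M.toCyc B k0
  obtain ⟨hE1, hE2⟩ := hEDG V F M
  have hxB : ¬ OnV M.toCyc B x := fun h => hbad.ne B ⟨h, ⟨k0, hk0⟩⟩
  have hxy : ¬ Adj M.toCyc x y := by
    rintro ⟨f, hf⟩
    have := hE1 f x y hf
    exact hbad.ne f ⟨this.1, this.2.1⟩
  set W : Finset F :=
    univ.filter (fun A => OnV M.toCyc A x ∧ ∃ s ∈ QQ M x B, OnV M.toCyc A s) with hW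
  set T : Finset ℕ :=
    (Finset.range (M.len B)).filter (fun k => Adj M.toCyc x (M.bd B (k0 + k))) with hT
  have hTmem : ∀ k, k ∈ T ↔ k < M.len B ∧ Adj M.toCyc x (M.bd B (k0 + k)) := by
    intro k
    rw [hT, mem_filter, mem_range]
  have hT1 : ∀ k ∈ T, 1 ≤ k := by
    intro k hk
    rw [hTmem] at hk
    by_contra hcon
    have h0 : k = 0 := by omega
    rw [h0, Nat.add_zero, hk0] at hk
    exact hxy hk.2
  -- neighbours of `x` on `B` have an index in `T`
  have hQT : ∀ s ∈ QQ M x B, ∃ k ∈ T, M.bd B (k0 + k) = s := by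
    intro s hs
    unfold QQ at hs
    rw [mem_filter] at hs
    obtain ⟨a, ha, hs'⟩ := hsurj s hs.2.2
    refine ⟨a, (hTmem a).2 ⟨ha, ?_⟩, hs'⟩
    rw [hs']
    exact hs.2.1
  have hTne : T.Nonempty := by
    obtain ⟨s, hs⟩ := hQ
    obtain ⟨k, hk, -⟩ := hQT s hs
    exact ⟨k, hk⟩
  -- two common vertices with `B` of a face containing `x`
  have hkey : ∀ A a b, OnV M.toCyc A x → 1 ≤ a → a < b → b < M.len B →
      OnV M.toCyc A (M.bd B (k0 + a)) → OnV M.toCyc A (M.bd B (k0 + b)) → b = a + 1 := by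
    intro A a b hA h1 h2 h3 h4 h5
    have hAB : A ≠ B := by
      rintro rfl
      exact hxB hA
    have hne : M.bd B (k0 + a) ≠ M.bd B (k0 + b) := by
      intro h
      have := hinj a b (by omega) h3 h
      omega
    have := (M.poly A B hAB _ _ hne h4 h5 ⟨_, rfl⟩ ⟨_, rfl⟩).2.1
    rcases hedge a b h2 h3 this with h | h
    · exact h
    · omega
  obtain ⟨k, hkT, hkmin⟩ : ∃ k ∈ T, ∀ j ∈ T, k ≤ j :=
    ⟨T.min' hTne, T.min'_mem hTne, fun j hj => T.min'_le j hj⟩
  obtain ⟨l, hlT, hlmax⟩ : ∃ l ∈ T, ∀ j ∈ T, j ≤ l :=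
    ⟨T.max' hTne, T.max'_mem hTne, fun j hj => T.le_max' j hj⟩
  have hk := (hTmem k).1 hkT
  have hl := (hTmem l).1 hlT
  have hk1 := hT1 k hkT
  have hl1 := hT1 l hlT
  have hkl := hkmin l hlT
  obtain ⟨k1, a1, a2, A1, a3, a4, a5⟩ := hbad.bm B k0 k hk0 hk1 hk.1 hk.2
  obtain ⟨k2, b1, b2, A2, b3, b4, b5⟩ := hbad.bp B k0 l hk0 hl1 hl.1 hl.2
  have hA1W : A1 ∉ W := by
    intro h
    rw [hW, mem_filter] at h
    obtain ⟨-, -, s, hs, hAs⟩ := h
    obtain ⟨j, hj, hjs⟩ := hQT s hs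
    have h1 := hkmin j hj
    have h2 := (hTmem j).1 hj
    rcases Nat.lt_or_ge k j with h3 | h3
    · have := hkey A1 k1 j a3 a1 (by omega) h2.1 a4 (by rw [hjs]; exact hAs)
      omega
    · have : j = k := by omega
      rw [this] at hjs
      exact a5 (by rw [hjs]; exact hAs)
  have hA2W : A2 ∉ W := by
    intro h
    rw [hW, mem_filter] at h
    obtain ⟨-, -, s, hs, hAs⟩ := h
    obtain ⟨j, hj, hjs⟩ := hQT s hs
    have h1 := hlmax j hj
    have h2 := hT1 j hj
    rcases Nat.lt_or_ge j l with h3 | h3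
    · have := hkey A2 j k2 b3 h2 (by omega) b2 (by rw [hjs]; exact hAs) b4
      omega
    · have : j = l := by omega
      rw [this] at hjs
      exact b5 (by rw [hjs]; exact hAs)
  have hA12 : A1 ≠ A2 := by
    rintro rfl
    have := hkey A1 k1 k2 a3 a1 (by omega) b2 a4 b4
    omega
  have hsub : insert A1 (insert A2 W) ⊆ NN M x B := by
    intro A hA
    unfold NN
    rw [mem_filter]
    refine ⟨mem_univ _, ?_⟩
    rw [mem_insert, mem_insert] at hA
    rcases hA with rfl | rfl | hA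
    · exact ⟨a3, _, a4, ⟨_, rfl⟩⟩
    · exact ⟨b3, _, b4, ⟨_, rfl⟩⟩
    · rw [hW, mem_filter] at hA
      obtain ⟨-, h1, s, hs, hAs⟩ := hA
      unfold QQ at hs
      rw [mem_filter] at hs
      exact ⟨h1, s, hAs, hs.2.2⟩
  have hcard := card_le_card hsub
  have hni : A1 ∉ insert A2 W := by
    rw [mem_insert]
    rintro (h | h)
    · exact hA12 h
    · exact hA1W h
  rw [card_insert_of_notMem hni, card_insert_of_notMem hA2W] at hcard
  omega

end Pool.Agent.helper84.NR
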